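import Pool.Agent.Zk30.SP.Sys

/-!
# A lower bound for the exponent
-/

set_option autoImplicit false

namespace Pool.Agent.Zk30.SP

theorem cK_le {x : ℝ} (hx : 0 < x) (hx1 : x ≤ 1) : cK x ≤ (65536 * 21 ^ 8 + 23) / x := by
  unfold cK
  have h1 := Real.log_le_sub_one_of_pos (show (0 : ℝ) < 8 + 65536 * 21 ^ 8 / x by positivity)
  have h2 : Real.log 2 ≤ 1 := by linarith [Real.log_two_lt_d9]
  have h3 : 8 * (Real.log 2 / x) ≤ 8 / x := by
    rw [← mul_div_assoc]
    exact div_le_div_of_nonneg_right (by linarith) hx.le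
  have h4 : 1 ≤ 1 / x := by rw [le_div_iff₀ hx]; linarith
  have h5 : (65536 * 21 ^ 8 + 23) / x = 65536 * 21 ^ 8 / x + 8 / x + 15 * (1 / x) := by ring
  rw [h5]
  linarith

/-- the threshold as a function of a proportion -/
theorem bound_xg {t x : ℝ} (ht : 0 < t) (ht1 : t ≤ 1)
    (hx : x = xgD (2 * (t * Real.exp (-(1 / t)) / 4))) :
    0 < x ∧ x ≤ 1 ∧ 1 / x ≤ 2304 * Real.exp (4 / t) := by
  unfold xgD at hx
  obtain ⟨D, hD⟩ : ∃ D : ℝ, D = t * Real.exp (-(1 / t)) / 2 := ⟨_, rfl⟩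
  have e0 : 2 * (t * Real.exp (-(1 / t)) / 4) = D := by rw [hD]; ring
  rw [e0] at hx
  have hE0 := Real.exp_pos (-(1 / t))
  have hE1 : Real.exp (-(1 / t)) ≤ 1 := Real.exp_le_one_iff.2 (by
    have : 0 < 1 / t := by positivity
    linarith)
  have hD0 : 0 < D := by rw [hD]; positivity
  have hD1 : D ≤ 1 := by rw [hD]; nlinarith
  have hlog : D / 2 ≤ Real.log (1 + D) := by
    have h7 := Real.one_sub_inv_le_log_of_pos (show (0 : ℝ) < 1 + D by linarith)
    refine le_trans ?_ h7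
    have h8 : 1 - (1 + D)⁻¹ = D / (1 + D) := by field_simp; ring
    rw [h8]
    apply div_le_div_of_nonneg_left hD0.le (by linarith) (by linarith)
  have h1 : D ^ 2 / 576 ≤ x := by
    rw [hx]
    refine le_min ?_ ?_
    · nlinarith
    · have h2 : D / 24 ≤ Real.log (1 + D) / 12 := by linarith
      have h3 := pow_le_pow_left₀ (by positivity) h2 2
      refine le_trans (le_of_eq ?_) h3
      ring
  have hx0 : 0 < x := lt_of_lt_of_le (by positivity) h1
  refine ⟨hx0, ?_, ?_⟩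
  · have : x ≤ 1 / 2 := by rw [hx]; exact min_le_left _ _
    linarith
  · have h2 : 1 / x ≤ 1 / (D ^ 2 / 576) := one_div_le_one_div_of_le (by positivity) h1
    refine h2.trans ?_
    have h3 : 1 / t ≤ Real.exp (1 / t) := by
      have := Real.add_one_le_exp (1 / t)
      linarith
    have e1 : 1 / (D ^ 2 / 576) = 2304 * ((1 / t) ^ 2 * Real.exp (2 * (1 / t))) := by
      have e2 : Real.exp (2 * (1 / t)) = (Real.exp (-(1 / t)) ^ 2)⁻¹ := by
        rw [← Real.exp_nat_mul, ← Real.exp_neg]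
        congr 1
        push_cast
        ring
      rw [hD, e2]
      field_simp
      norm_num
    rw [e1]
    have h4 : (1 / t) ^ 2 ≤ Real.exp (1 / t) ^ 2 := pow_le_pow_left₀ (by positivity) h3 2
    have e3 : Real.exp (4 / t) = Real.exp (1 / t) ^ 2 * Real.exp (2 * (1 / t)) := by
      rw [← Real.exp_nat_mul, ← Real.exp_add]
      congr 1
      push_cast
      ring
    rw [e3]
    have h5 := Real.exp_pos (2 * (1 / t))
    have := mul_le_mul_of_nonneg_right h4 h5.le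
    linarith

theorem cS_le {t : ℝ} (ht : 0 < t) (ht1 : t ≤ 1) :
    cS t ≤ (65536 * 21 ^ 8 + 23) * 2304 * Real.exp (4 / t) := by
  obtain ⟨hx0, hx1, hx⟩ := bound_xg ht ht1 rfl
  unfold cS
  refine (cK_le hx0 hx1).trans ?_
  have h1 := mul_le_mul_of_nonneg_left hx (by norm_num : (0 : ℝ) ≤ 65536 * 21 ^ 8 + 23)
  have e : (65536 * 21 ^ 8 + 23 : ℝ) / xgD (2 * (t * Real.exp (-(1 / t)) / 4)) =
      (65536 * 21 ^ 8 + 23) * (1 / xgD (2 * (t * Real.exp (-(1 / t)) / 4))) := by ring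
  rw [e]
  linarith

/-- the exponent of the energy inequality is at least `exp (-exp (K / ε))` -/
theorem kap_ge : ∃ K : ℝ, 0 < K ∧ ∀ ε : ℝ, 0 < ε → ε ≤ 1 →
    Real.exp (-Real.exp (K / ε)) ≤ 1 / (9 + 720 * Real.exp (cS (ε / 4) / min 1 (ε / 6))) := by
  obtain ⟨A, hA⟩ : ∃ A : ℝ, A = (65536 * 21 ^ 8 + 23) * 2304 * 6 + 729 := ⟨_, rfl⟩
  have hA0 : (729 : ℝ) ≤ A := by rw [hA]; norm_num
  refine ⟨A + 17, by linarith, ?_⟩
  intro ε hε hε1
  have h1 := cS_le (t := ε / 4) (by positivity) (by linarith)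
  have e1 : min 1 (ε / 6) = ε / 6 := min_eq_right (by linarith)
  have e2 : (4 : ℝ) / (ε / 4) = 16 / ε := by field_simp; norm_num
  rw [e2] at h1
  have hi : 1 ≤ 1 / ε := by rw [le_div_iff₀ hε]; linarith
  have hi2 : 1 / ε ≤ Real.exp (1 / ε) := by
    have := Real.add_one_le_exp (1 / ε)
    linarith
  have h2 : cS (ε / 4) / min 1 (ε / 6) ≤
      ((65536 * 21 ^ 8 + 23) * 2304 * 6) * (Real.exp (16 / ε) * Real.exp (1 / ε)) := by
    rw [e1]
    have e3 : cS (ε / 4) / (ε / 6) = cS (ε / 4) * 6 * (1 / ε) := by field_simp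
    rw [e3]
    have h3 : cS (ε / 4) * 6 ≤ (65536 * 21 ^ 8 + 23) * 2304 * 6 * Real.exp (16 / ε) := by linarith
    calc cS (ε / 4) * 6 * (1 / ε) ≤
        ((65536 * 21 ^ 8 + 23) * 2304 * 6 * Real.exp (16 / ε)) * (1 / ε) :=
          mul_le_mul_of_nonneg_right h3 (by positivity)
      _ ≤ ((65536 * 21 ^ 8 + 23) * 2304 * 6 * Real.exp (16 / ε)) * Real.exp (1 / ε) :=
          mul_le_mul_of_nonneg_left hi2 (by positivity)
      _ = _ := by ring
  rw [← Real.exp_add] at h2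
  have e4 : 16 / ε + 1 / ε = 17 / ε := by ring
  rw [e4] at h2
  obtain ⟨W, hW⟩ : ∃ W : ℝ, W = Real.exp (17 / ε) := ⟨_, rfl⟩
  have hW1 : 1 ≤ W := by rw [hW]; exact Real.one_le_exp (by positivity)
  rw [← hW] at h2
  -- the denominator
  obtain ⟨B, hB⟩ : ∃ B : ℝ, B = (65536 * 21 ^ 8 + 23) * 2304 * 6 := ⟨_, rfl⟩
  have hB0 : 0 < B := by rw [hB]; norm_num
  rw [← hB] at h2 hA
  obtain ⟨s, hs⟩ : ∃ s : ℝ, s = cS (ε / 4) / min 1 (ε / 6) := ⟨_, rfl⟩
  rw [← hs] at h2 ⊢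
  have h5 : 9 + 720 * Real.exp s ≤ Real.exp (A * W) := by
    have h6 := Real.exp_le_exp.2 h2
    have h7 : (1 : ℝ) ≤ Real.exp (B * W) := Real.one_le_exp (by positivity)
    have h8 : (729 : ℝ) ≤ Real.exp (729 * W) := by
      have := Real.add_one_le_exp (729 * W)
      linarith
    have e5 : Real.exp (A * W) = Real.exp (729 * W) * Real.exp (B * W) := by
      rw [← Real.exp_add, hA]; congr 1; ring
    rw [e5]
    have h9 : 729 * Real.exp (B * W) ≤ Real.exp (729 * W) * Real.exp (B * W) :=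
      mul_le_mul_of_nonneg_right h8 (Real.exp_pos _).le
    linarith
  have h6 : A * W ≤ Real.exp ((A + 17) / ε) := by
    have h7 : A ≤ Real.exp (A / ε) := by
      have h8 := Real.add_one_le_exp (A / ε)
      have h9 : A ≤ A / ε := by rw [le_div_iff₀ hε]; nlinarith
      linarith
    have e6 : Real.exp ((A + 17) / ε) = Real.exp (A / ε) * W := by
      rw [hW, ← Real.exp_add]; congr 1; ring
    rw [e6]
    exact mul_le_mul_of_nonneg_right h7 (by linarith)
  rw [Real.exp_neg, ← one_div]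
  exact one_div_le_one_div_of_le (by positivity) (h5.trans (Real.exp_le_exp.2 h6))

theorem kap_mul_ge : ∃ K : ℝ, 0 < K ∧ ∀ δ : ℝ, 0 < δ → δ ≤ 1 → ∀ ε : ℝ, δ / 4 ≤ ε → ε ≤ 1 →
    Real.exp (-Real.exp (K / δ)) ≤
      1 / (9 + 720 * Real.exp (cS (ε / 4) / min 1 (ε / 6))) * (δ / 2) := by
  obtain ⟨K, hK, h⟩ := kap_ge
  refine ⟨4 * K + 2, by positivity, ?_⟩
  intro δ hδ hδ1 ε hε hε1
  have hε0 : 0 < ε := by linarith
  have h1 := h ε hε0 hε1
  have h2 : K / ε ≤ 4 * K / δ := by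
    rw [div_le_div_iff₀ hε0 hδ]
    nlinarith
  have h3 : Real.exp (-Real.exp (4 * K / δ)) ≤ Real.exp (-Real.exp (K / ε)) :=
    Real.exp_le_exp.2 (neg_le_neg (Real.exp_le_exp.2 h2))
  have h4 : Real.exp (-(2 / δ)) ≤ δ / 2 := by
    have h5 := Real.add_one_le_exp (2 / δ)
    have h6 : 2 / δ ≤ Real.exp (2 / δ) := by linarith
    rw [Real.exp_neg]
    rw [inv_le_comm₀ (Real.exp_pos _) (by positivity)]
    refine le_trans (le_of_eq ?_) h6
    rw [inv_div]
  have h5 : Real.exp (4 * K / δ) + 2 / δ ≤ Real.exp ((4 * K + 2) / δ) := by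
    have e1 : Real.exp ((4 * K + 2) / δ) = Real.exp (4 * K / δ) * Real.exp (2 / δ) := by
      rw [← Real.exp_add]; congr 1; ring
    have h6 : 1 ≤ Real.exp (4 * K / δ) := Real.one_le_exp (by positivity)
    have h7 := Real.add_one_le_exp (2 / δ)
    have h8 : 0 ≤ 2 / δ := by positivity
    rw [e1]
    nlinarith
  calc Real.exp (-Real.exp ((4 * K + 2) / δ))
      ≤ Real.exp (-(Real.exp (4 * K / δ) + 2 / δ)) := Real.exp_le_exp.2 (neg_le_neg h5)
    _ = Real.exp (-Real.exp (4 * K / δ)) * Real.exp (-(2 / δ)) := by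
        rw [← Real.exp_add]; congr 1; ring
    _ ≤ (1 / (9 + 720 * Real.exp (cS (ε / 4) / min 1 (ε / 6)))) * (δ / 2) :=
        mul_le_mul (h3.trans h1) h4 (Real.exp_pos _).le (by positivity)

end Pool.Agent.Zk30.SP
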