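import Pool.Agent.H633R5.FS.Cell

/-!
# The key inequality and the cell inequality with an explicit constant

These are `H633R5.FS.key` and `H633R5.FS.cell` (starting files) with the same proofs; only the
constant is made explicit.
-/

set_option autoImplicit false

namespace Pool.Agent.Zk30.SP

open Finset H633R5.FS
open scoped Pointwise

/-- the constant of the key inequality -/
noncomputable def cK (x : ℝ) : ℝ := Real.log (8 + 65536 * 21 ^ 8 / x) + 8 + 8 * (Real.log 2 / x)

theorem key (xg : ℝ) (hxg : 0 < xg) (c : ℝ) (hcd : c = cK xg) : 0 < c ∧ ∀ ε : ℝ, 0 < ε → ε ≤ 1 →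
    ∀ (p : ℕ) [Fact p.Prime], Real.exp (c / ε) ≤ p → ∀ (w ξ : ZMod p → ℝ) (z₀ : ZMod p),
      Dist w ξ z₀ → ∀ x : ℝ, xg ≤ x → x < 1 →
        Psi x (1 - x) ≤ Real.exp (c / ε) * Inf x w ξ + ε * x * Real.log (1 / w z₀) := by
  subst hcd
  unfold cK
  have hlog2 : 0 < Real.log 2 := Real.log_pos (by norm_num)
  set c₁ : ℝ := 65536 * 21 ^ 8 / xg with hc₁
  have hc₁0 : 0 < c₁ := by positivity
  have hlogc : 0 < Real.log (8 + c₁) := Real.log_pos (by linarith)
  refine ⟨by positivity, ?_⟩
  intro ε hε hε1 p _ hp w ξ z₀ h x hx hx1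
  set c : ℝ := Real.log (8 + c₁) + 8 + 8 * (Real.log 2 / xg) with hc
  set Λ : ℝ := Real.log 2 / (ε * xg) with hΛ
  have hΛ0 : 0 < Λ := by positivity
  have hiε : 1 ≤ 1 / ε := by rw [le_div_iff₀ hε]; linarith
  have hΛe : Λ = (Real.log 2 / xg) / ε := by rw [hΛ]; field_simp
  set y₀ : ℝ := (1 / (11 + 10 / ε)) ^ 4 with hy₀
  have hy₀0 : 0 < y₀ := by positivity
  set θ : ℝ := Real.exp (-Λ) with hθ
  have hθ0 : 0 < θ := Real.exp_pos _
  have hθ1 : θ ≤ 1 := Real.exp_le_one_iff.2 (by linarith)
  set η : ℝ := θ ^ 4 / 128 with hη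
  have hη0 : 0 < η := by positivity
  set κ : ℝ := xg * y₀ ^ 2 * η ^ 2 / 4 with hκ
  have hκ0 : 0 < κ := by positivity
  -- the size of the constant
  have hK : 8 + Real.log 2 / κ ≤ Real.exp (c / ε) := by
    have e1 : Real.exp (c / ε) = Real.exp (Real.log (8 + c₁) / ε) * Real.exp (8 / ε) *
        Real.exp (8 * Λ) := by
      rw [← Real.exp_add, ← Real.exp_add, hΛe, hc]
      congr 1
      ring
    have h1 : 8 + c₁ ≤ Real.exp (Real.log (8 + c₁) / ε) := by
      have h2 : Real.log (8 + c₁) ≤ Real.log (8 + c₁) / ε := by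
        rw [le_div_iff₀ hε]; nlinarith
      calc 8 + c₁ = Real.exp (Real.log (8 + c₁)) := (Real.exp_log (by linarith)).symm
        _ ≤ _ := Real.exp_le_exp.2 h2
    have h2 : (1 / ε) ^ 8 ≤ Real.exp (8 / ε) := by
      have h3 : 1 / ε ≤ Real.exp (1 / ε) := by
        have := Real.add_one_le_exp (1 / ε)
        linarith
      have h4 : Real.exp (8 / ε) = Real.exp (1 / ε) ^ 8 := by
        rw [← Real.exp_nat_mul]
        congr 1
        push_cast; ring
      rw [h4]
      exact pow_le_pow_left₀ (by positivity) h3 8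
    have h3 : 1 ≤ (1 / ε) ^ 8 := one_le_pow₀ hiε
    have h4 : 1 ≤ Real.exp (8 * Λ) := Real.one_le_exp (by positivity)
    have hy : (ε / 21) ^ 8 ≤ y₀ ^ 2 := by
      have h5 : ε / 21 ≤ 1 / (11 + 10 / ε) := by
        rw [div_le_div_iff₀ (by norm_num) (by positivity)]
        have : ε * (11 + 10 / ε) = 11 * ε + 10 := by field_simp
        linarith
      calc (ε / 21) ^ 8 ≤ (1 / (11 + 10 / ε)) ^ 8 := pow_le_pow_left₀ (by positivity) h5 8
        _ = y₀ ^ 2 := by rw [hy₀]; ring
    have h5 : Real.log 2 / κ ≤ c₁ * (1 / ε) ^ 8 * Real.exp (8 * Λ) := by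
      have e2 : η ^ 2 = Real.exp (-(8 * Λ)) / 16384 := by
        have : θ ^ 8 = Real.exp (-(8 * Λ)) := by
          rw [hθ, ← Real.exp_nat_mul]
          congr 1
          push_cast; ring
        rw [← this, hη]; ring
      have h6 : xg * (ε / 21) ^ 8 * (Real.exp (-(8 * Λ)) / 16384) / 4 ≤ κ := by
        rw [hκ, e2]
        have := mul_le_mul_of_nonneg_left hy hxg.le
        have h7 := mul_le_mul_of_nonneg_right this
          (by positivity : 0 ≤ Real.exp (-(8 * Λ)) / 16384)
        linarith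
      have h7 : 0 < xg * (ε / 21) ^ 8 * (Real.exp (-(8 * Λ)) / 16384) / 4 := by positivity
      have h8 : Real.log 2 ≤ 1 := by linarith [Real.log_two_lt_d9]
      calc Real.log 2 / κ ≤ 1 / κ := div_le_div_of_nonneg_right h8 hκ0.le
        _ ≤ 1 / (xg * (ε / 21) ^ 8 * (Real.exp (-(8 * Λ)) / 16384) / 4) :=
            one_div_le_one_div_of_le h7 h6
        _ = c₁ * (1 / ε) ^ 8 * Real.exp (8 * Λ) := by
            rw [hc₁, Real.exp_neg]
            field_simp
            norm_num
    have h6 : 1 ≤ (1 / ε) ^ 8 * Real.exp (8 * Λ) := by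
      have := mul_le_mul h3 h4 (by norm_num) (by positivity)
      linarith
    calc 8 + Real.log 2 / κ ≤ 8 * ((1 / ε) ^ 8 * Real.exp (8 * Λ)) +
          c₁ * (1 / ε) ^ 8 * Real.exp (8 * Λ) := by linarith
      _ = (8 + c₁) * (1 / ε) ^ 8 * Real.exp (8 * Λ) := by ring
      _ ≤ Real.exp (Real.log (8 + c₁) / ε) * Real.exp (8 / ε) * Real.exp (8 * Λ) := by
          refine mul_le_mul_of_nonneg_right ?_ (Real.exp_pos _).le
          exact mul_le_mul h1 h2 (by positivity) (Real.exp_pos _).le
      _ = Real.exp (c / ε) := e1.symm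
  have hp3 : 3 / θ ≤ p := by
    refine le_trans ?_ hp
    have e1 : (3 : ℝ) / θ = 3 * Real.exp Λ := by
      rw [hθ, Real.exp_neg]; field_simp
    rw [e1]
    have h1 : (3 : ℝ) ≤ Real.exp (8 / ε) := by
      have h2 : (8 : ℝ) ≤ 8 / ε := by rw [le_div_iff₀ hε]; linarith
      have h3 := Real.add_one_le_exp (8 / ε)
      linarith
    have h2 : Real.exp Λ ≤ Real.exp (8 * (Real.log 2 / xg) / ε) := by
      apply Real.exp_le_exp.2
      rw [hΛe, mul_div_assoc]
      have : 0 < Real.log 2 / xg / ε := by positivity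
      linarith
    calc 3 * Real.exp Λ ≤ Real.exp (8 / ε) * Real.exp (8 * (Real.log 2 / xg) / ε) :=
          mul_le_mul h1 h2 (Real.exp_pos _).le (Real.exp_pos _).le
      _ = Real.exp ((8 + 8 * (Real.log 2 / xg)) / ε) := by
          rw [← Real.exp_add]; congr 1; ring
      _ ≤ Real.exp (c / ε) := by
          apply Real.exp_le_exp.2
          apply div_le_div_of_nonneg_right _ hε.le
          rw [hc]; linarith
  have hx0 : 0 < x := by linarith
  have hI := Inf_nonneg h hx0.le hx1.le
  have hw := h.pos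
  have hw1 := h.le_one z₀
  have hlogw : 0 ≤ Real.log (1 / w z₀) := by
    apply Real.log_nonneg
    rw [le_div_iff₀ hw]; linarith
  suffices hsuff : Psi x (1 - x) ≤
      (8 + Real.log 2 / κ) * Inf x w ξ + ε * x * Real.log (1 / w z₀) by
    have := mul_le_mul_of_nonneg_right hK hI
    linarith
  have hKI : 0 ≤ Real.log 2 / κ * Inf x w ξ := by positivity
  by_cases hxy : 1 - y₀ ≤ x
  · have := near_one ε hε p w ξ z₀ h x hxy hx1
    have e : (8 + Real.log 2 / κ) * Inf x w ξ = 8 * Inf x w ξ + Real.log 2 / κ * Inf x w ξ := by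
      ring
    linarith
  · push Not at hxy
    have hP := Psi_le_log_two hx0.le hx1.le
    by_cases hθw : θ ≤ w z₀
    · obtain ⟨z, hz⟩ := chain θ hθ0 hθ1 p hp3 w ξ h.w0 h.w1 h.x0 h.x1 h.xz z₀ hθw
      have h1 := Inf_ge_sq h hx0 hx1 z
      have h2 : κ ≤ x * (1 - x) ^ 2 * (w z - ∑ c, ξ c * w (z - c)) ^ 2 / 4 := by
        have h3 : η ^ 2 ≤ (w z - ∑ c, ξ c * w (z - c)) ^ 2 := by
          rw [← sq_abs (w z - ∑ c, ξ c * w (z - c))]
          exact pow_le_pow_left₀ hη0.le hz 2
        have h4 : y₀ ^ 2 ≤ (1 - x) ^ 2 := pow_le_pow_left₀ hy₀0.le (by linarith) 2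
        rw [hκ]
        have h5 : xg * y₀ ^ 2 ≤ x * (1 - x) ^ 2 := mul_le_mul hx h4 (by positivity) hx0.le
        have h6 := mul_le_mul h5 h3 (by positivity) (by positivity)
        linarith
      have h3 : Real.log 2 ≤ Real.log 2 / κ * Inf x w ξ := by
        have h4 : κ ≤ Inf x w ξ := h2.trans h1
        calc Real.log 2 = Real.log 2 / κ * κ := by field_simp
          _ ≤ Real.log 2 / κ * Inf x w ξ := mul_le_mul_of_nonneg_left h4 (by positivity)
      have h5 : 0 ≤ ε * x * Real.log (1 / w z₀) := by positivity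
      have e : (8 + Real.log 2 / κ) * Inf x w ξ =
          8 * Inf x w ξ + Real.log 2 / κ * Inf x w ξ := by ring
      linarith
    · push Not at hθw
      have h1 : Λ ≤ Real.log (1 / w z₀) := by
        rw [one_div, Real.log_inv]
        have : Real.log (w z₀) ≤ -Λ := by
          rw [Real.log_le_iff_le_exp hw]; exact hθw.le
        linarith
      have h2 : Real.log 2 ≤ ε * x * Real.log (1 / w z₀) := by
        calc Real.log 2 = ε * xg * Λ := by rw [hΛ]; field_simp
          _ ≤ ε * x * Real.log (1 / w z₀) :=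
            mul_le_mul (mul_le_mul_of_nonneg_left hx hε.le) h1 hΛ0.le (by positivity)
      have h3 : 0 ≤ (8 + Real.log 2 / κ) * Inf x w ξ := by positivity
      linarith


theorem cell (a xg : ℝ) (ha : 0 < a) (ha1 : a ≤ 1) (hxg : 0 < xg) (c : ℝ) (hcd : c = cK xg) :
    0 < c ∧ ∀ e : ℝ, 0 < e → e ≤ a → ∀ K : ℝ, K = Real.exp (c / e) →
      ∀ (p : ℕ) [Fact p.Prime], Real.exp (c / e) ≤ p → ∀ (C R : Finset ℤ),
      R.Nonempty → (∀ c ∈ C, c ≠ 0) → ∀ t : ℕ, (∀ c ∈ C, t ≤ padicValInt p c) →
      (hi p t C).Nonempty → (lo p t C).Nonempty → ∀ x : ℝ,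
      x = ((hi p t C).card : ℝ) / C.card →
      ∃ R' R'' : Finset ℤ, R'.Nonempty ∧ R''.Nonempty ∧
        -(a * Psi x (1 - x)) ≤ (1 - x) * (F a K e (lo p t C) R' - F a K e C R) +
          x * (F a K e (hi p t C) R'' - F a K e C R) ∧
        (xg ≤ x → 0 ≤ (1 - x) * (F a K e (lo p t C) R' - F a K e C R) +
          x * (F a K e (hi p t C) R'' - F a K e C R)) := by
  obtain ⟨hc, hkey⟩ := key xg hxg c hcd
  refine ⟨hc, ?_⟩
  intro e he hea K hKe p _ hp C R hR h0 t ht hhi hlo x hx
  have hK : 0 < K := by rw [hKe]; exact Real.exp_pos _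
  have hce : Real.exp (c / (e / a)) ≤ Real.exp (c / e) := by
    apply Real.exp_le_exp.2
    apply div_le_div_of_nonneg_left hc.le he
    rw [le_div_iff₀ ha]
    nlinarith
  obtain ⟨R', R'', w, ξ, z₀, hsub, hR', hsub', hR'', hg, hg', hcard, hD, hI⟩ :=
    step p C R hR h0 t ht hhi hlo x hx
  refine ⟨R', R'', hR', hR'', ?_⟩
  have chi : (0 : ℝ) < (hi p t C).card := by exact_mod_cast hhi.card_pos
  have clo : (0 : ℝ) < (lo p t C).card := by exact_mod_cast hlo.card_pos
  have hcardC : ((hi p t C).card : ℝ) + (lo p t C).card = C.card := by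
    exact_mod_cast card_hi_lo p t C
  have cC : (0 : ℝ) < C.card := by linarith
  have cR : (0 : ℝ) < R.card := by exact_mod_cast hR.card_pos
  have cR' : (0 : ℝ) < R'.card := by exact_mod_cast hR'.card_pos
  have cR'' : (0 : ℝ) < R''.card := by exact_mod_cast hR''.card_pos
  have hx0 : 0 < x := by rw [hx]; positivity
  have hx' : 1 - x = ((lo p t C).card : ℝ) / C.card := by
    rw [hx]; field_simp; linarith
  have hx1 : 0 < 1 - x := by rw [hx']; positivity
  have hInf := Inf_nonneg hD hx0.le (by linarith)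
  have hw := hD.pos
  have hlogw : 0 ≤ Real.log (1 / w z₀) := by
    apply Real.log_nonneg
    rw [le_div_iff₀ hw]; linarith [hD.le_one z₀]
  have hF : F a K e C R ≤ F a K e C R' := by
    unfold F
    have h1 := mul_le_mul_of_nonneg_left hg hK.le
    have h2 : Real.log R'.card ≤ Real.log R.card :=
      Real.log_le_log cR' (by exact_mod_cast Finset.card_le_card hsub)
    have h3 := mul_le_mul_of_nonneg_left h2 he.le
    linarith
  have e2 : Psi x (1 - x) = Real.log C.card - x * Real.log (hi p t C).card -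
      (1 - x) * Real.log (lo p t C).card := by
    rw [Psi_one]
    have f0 : Real.log (1 / x) = Real.log C.card - Real.log (hi p t C).card := by
      rw [hx, one_div, Real.log_inv, Real.log_div chi.ne' cC.ne']; ring
    have f1 : Real.log (1 / (1 - x)) = Real.log C.card - Real.log (lo p t C).card := by
      rw [hx', one_div, Real.log_inv, Real.log_div clo.ne' cC.ne']; ring
    rw [f0, f1]
    ring
  have hlogR'' : Real.log R''.card ≤ Real.log R'.card - Real.log (1 / w z₀) := by
    have h1 : Real.log R''.card ≤ Real.log (w z₀ * R'.card) := Real.log_le_log cR'' hcard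
    rw [Real.log_mul hw.ne' cR'.ne'] at h1
    rw [one_div, Real.log_inv]
    linarith
  have main : -(a * Psi x (1 - x)) + K * Inf x w ξ + e * x * Real.log (1 / w z₀) ≤
      (1 - x) * (F a K e (lo p t C) R' - F a K e C R) +
          x * (F a K e (hi p t C) R'' - F a K e C R) := by
    have h1 : (1 - x) * (F a K e (lo p t C) R' - F a K e C R) +
          x * (F a K e (hi p t C) R'' - F a K e C R) =
        (1 - x) * F a K e (lo p t C) R' + x * F a K e (hi p t C) R'' - F a K e C R := by ring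
    rw [h1]
    have h2 : (1 - x) * F a K e (lo p t C) R' + x * F a K e (hi p t C) R'' - F a K e C R' ≤
        (1 - x) * F a K e (lo p t C) R' + x * F a K e (hi p t C) R'' - F a K e C R := by
      linarith
    refine le_trans ?_ h2
    unfold F
    have h3 := mul_le_mul_of_nonneg_left hI hK.le
    have h4 : x * (K * g (hi p t C) R'') ≤ x * (K * g (hi p t C) R') :=
      mul_le_mul_of_nonneg_left (mul_le_mul_of_nonneg_left hg' hK.le) hx0.le
    have h5 : x * (e * Real.log R''.card) ≤
        x * (e * (Real.log R'.card - Real.log (1 / w z₀))) :=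
      mul_le_mul_of_nonneg_left (mul_le_mul_of_nonneg_left hlogR'' he.le) hx0.le
    rw [e2]
    nlinarith
  constructor
  · have h1 : 0 ≤ K * Inf x w ξ := by positivity
    have h2 : 0 ≤ e * x * Real.log (1 / w z₀) := by positivity
    linarith
  · intro hxx
    have h1 := hkey (e / a) (by positivity) (by rw [div_le_one ha]; exact hea) p
      (hce.trans hp) w ξ z₀ hD x hxx (by linarith)
    have h1' : Real.exp (c / (e / a)) * Inf x w ξ ≤ K * Inf x w ξ := by
      rw [hKe]
      exact mul_le_mul_of_nonneg_right hce hInf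
    have h2 := mul_le_mul_of_nonneg_left (h1.trans (add_le_add_left h1' _)) ha.le
    have h3 : a * (K * Inf x w ξ + e / a * x * Real.log (1 / w z₀)) =
        a * (K * Inf x w ξ) + e * x * Real.log (1 / w z₀) := by
      field_simp
    rw [h3] at h2
    have h4 : a * (K * Inf x w ξ) ≤ 1 * (K * Inf x w ξ) :=
      mul_le_mul_of_nonneg_right ha1 (by positivity)
    linarith


end Pool.Agent.Zk30.SP
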