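import Pool.Agent.Zk30.SP.Key
import Pool.Agent.Zk30.Sys

/-!
# The system inequality with an explicit constant

The proofs are those of `Zk30/Split`, `Zk30/Multi` and `Zk30/Sys`.
-/

set_option autoImplicit false

namespace Pool.Agent.Zk30.SP

open Finset H633R5.FS Pool.Agent.Zk30
open scoped Pointwise

/-- the threshold for the proportions -/
noncomputable def xgD (D : ℝ) : ℝ := min (1 / 2) ((Real.log (1 + D) / 12) ^ 2)

theorem xg_spec (D : ℝ) (hD : 0 < D) : 0 < xgD D ∧ xgD D ≤ 1 / 2 ∧ ∀ x : ℝ, 0 < x → x < xgD D →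
    Real.exp (4 * Psi x (1 - x)) ≤ 1 + D := by
  have hl : 0 < Real.log (1 + D) := Real.log_pos (by linarith)
  unfold xgD
  refine ⟨by positivity, min_le_left _ _, ?_⟩
  intro x hx hxη
  have h2 : x < 1 / 2 := lt_of_lt_of_le hxη (min_le_left _ _)
  have h3 : x < (Real.log (1 + D) / 12) ^ 2 := lt_of_lt_of_le hxη (min_le_right _ _)
  have h4 := Psi_le hx (by linarith : x < 1)
  have hsq : 0 < Real.sqrt x := Real.sqrt_pos.2 hx
  have hs2 : Real.sqrt x * Real.sqrt x = x := Real.mul_self_sqrt hx.le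
  have h5 : Real.log (1 / x) ≤ 2 / Real.sqrt x := by
    have h6 := Real.log_le_sub_one_of_pos (show 0 < 1 / Real.sqrt x by positivity)
    have h7 : Real.log (1 / x) = 2 * Real.log (1 / Real.sqrt x) := by
      rw [one_div, one_div, Real.log_inv, Real.log_inv, Real.log_sqrt hx.le]; ring
    rw [h7]
    have : 2 / Real.sqrt x = 2 * (1 / Real.sqrt x) := by ring
    rw [this]
    linarith
  have h6 : Real.sqrt x ≤ 1 := Real.sqrt_le_one.2 (by linarith)
  have h7 : Psi x (1 - x) ≤ 3 * Real.sqrt x := by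
    have h8 : x * (1 + Real.log (1 / x)) ≤ x * (1 + 2 / Real.sqrt x) :=
      mul_le_mul_of_nonneg_left (by linarith) hx.le
    have h9 : x * (1 + 2 / Real.sqrt x) = x + 2 * Real.sqrt x := by
      have : x * (2 / Real.sqrt x) = 2 * Real.sqrt x := by
        rw [mul_div_assoc', div_eq_iff hsq.ne']
        calc x * 2 = (Real.sqrt x * Real.sqrt x) * 2 := by rw [hs2]
          _ = _ := by ring
      linarith
    nlinarith
  have h8 : Real.sqrt x ≤ Real.log (1 + D) / 12 := by
    rw [← Real.sqrt_sq (by positivity : 0 ≤ Real.log (1 + D) / 12)]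
    exact Real.sqrt_le_sqrt h3.le
  rw [← Real.le_log_iff_exp_le (by linarith)]
  linarith

/-- the binary split -/
theorem split2 (δ : ℝ) (hδ : 0 < δ) (c : ℝ) (hcd : c = cK (xgD (2 * δ))) : 0 < c ∧ ∀ e : ℝ, 0 < e → e ≤ 1 →
    ∀ K : ℝ, K = Real.exp (c / e) → ∀ (p : ℕ) [Fact p.Prime], Real.exp (c / e) ≤ p →
    ∀ (C R : Finset ℤ), R.Nonempty → (∀ c ∈ C, c ≠ 0) → ∀ t : ℕ,
      (∀ c ∈ C, t ≤ padicValInt p c) → (hi p t C).Nonempty → (lo p t C).Nonempty →
      ∃ R' R'' : Finset ℤ, R'.Nonempty ∧ R''.Nonempty ∧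
        Real.exp (F 1 K e C R) ≤ Real.exp (F 1 K e (lo p t C) R') +
          Real.exp (F 1 K e (hi p t C) R'') ∧
        Real.exp (F 1 K e C R) ^ 2 ≤ Real.exp (F 1 K e (lo p t C) R') ^ 2 +
          Real.exp (F 1 K e (hi p t C) R'') ^ 2 +
          2 * min (Real.exp (F 1 K e (lo p t C) R') * Real.exp (F 1 K e (hi p t C) R''))
            (δ * Real.exp (F 1 K e (lo p t C) R') ^ 2) := by
  obtain ⟨η, hηd⟩ : ∃ η : ℝ, η = xgD (2 * δ) := ⟨_, rfl⟩
  obtain ⟨hη, hη2, hηx⟩ := xg_spec (2 * δ) (by positivity)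
  rw [← hηd] at hη hη2 hηx hcd
  obtain ⟨hc, hcell⟩ := cell 1 η one_pos le_rfl hη c hcd
  refine ⟨hc, ?_⟩
  intro e he he1 K hK p _ hp C R hR h0 t ht hhi hlo
  obtain ⟨x, hx⟩ : ∃ x : ℝ, x = ((hi p t C).card : ℝ) / C.card := ⟨_, rfl⟩
  obtain ⟨R', R'', hR', hR'', h1, h2⟩ := hcell e he he1 K hK p hp C R hR h0 t ht hhi hlo x hx
  refine ⟨R', R'', hR', hR'', ?_⟩
  have chi : (0 : ℝ) < (hi p t C).card := by exact_mod_cast hhi.card_pos
  have clo : (0 : ℝ) < (lo p t C).card := by exact_mod_cast hlo.card_pos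
  have hcardC : ((hi p t C).card : ℝ) + (lo p t C).card = C.card := by
    exact_mod_cast card_hi_lo p t C
  have cC : (0 : ℝ) < C.card := by linarith
  have hx0 : 0 < x := by rw [hx]; positivity
  have hx' : 1 - x = ((lo p t C).card : ℝ) / C.card := by
    rw [hx]; field_simp; linarith
  have hx1 : 0 < 1 - x := by rw [hx']; positivity
  set f := F 1 K e C R with hf
  set fl := F 1 K e (lo p t C) R' with hfl
  set fh := F 1 K e (hi p t C) R'' with hfh
  have h3 : f ≤ (1 - x) * fl + x * fh + Psi x (1 - x) := by linarith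
  have h4 := exp_first hx0 (by linarith) h3
  refine ⟨h4, ?_⟩
  have pf := Real.exp_pos f
  have pl := Real.exp_pos fl
  have ph := Real.exp_pos fh
  rw [mul_min_of_nonneg _ _ (by norm_num : (0 : ℝ) ≤ 2), ← min_add_add_left]
  refine le_min ?_ ?_
  · nlinarith
  · by_cases hxg : η ≤ x
    · have h5 := h2 hxg
      have h6 : f ≤ (1 - x) * fl + x * fh := by linarith
      have h7 : f ≤ max fl fh := by
        refine h6.trans ?_
        have := mul_le_mul_of_nonneg_left (le_max_left fl fh) hx1.le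
        have := mul_le_mul_of_nonneg_left (le_max_right fl fh) hx0.le
        linarith
      have h8 : Real.exp f ^ 2 ≤ Real.exp fl ^ 2 + Real.exp fh ^ 2 := by
        rcases le_total fl fh with h9 | h9
        · rw [max_eq_right h9] at h7
          have := pow_le_pow_left₀ pf.le (Real.exp_le_exp.2 h7) 2
          nlinarith
        · rw [max_eq_left h9] at h7
          have := pow_le_pow_left₀ pf.le (Real.exp_le_exp.2 h7) 2
          nlinarith
      have : 0 ≤ 2 * (δ * Real.exp fl ^ 2) := by positivity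
      linarith
    · push Not at hxg
      have h5 := exp_second hx0 (by linarith) h3 (hηx x hx0 hxg)
      linarith


theorem multi (δ : ℝ) (hδ : 0 < δ) (c : ℝ) (hcd : c = cK (xgD (2 * δ))) : 0 < c ∧ ∀ e : ℝ, 0 < e → e ≤ 1 →
    ∀ K : ℝ, K = Real.exp (c / e) → ∀ (p : ℕ) [Fact p.Prime], Real.exp (c / e) ≤ p →
    ∀ (N n : ℕ) (C R : Finset ℤ), C.card = n → C.Nonempty → R.Nonempty → (∀ c ∈ C, c ≠ 0) →
      (∀ c ∈ C, padicValInt p c < N) →
      ∃ R' : ℕ → Finset ℤ, (∀ i, (R' i).Nonempty) ∧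
        Real.exp (F 1 K e C R) ≤ ∑ i ∈ range N, uu K e (cl p i C) (R' i) ∧
        Real.exp (F 1 K e C R) ^ 2 ≤ ∑ i ∈ range N, ((uu K e (cl p i C) (R' i)) ^ 2 +
          2 * min (uu K e (cl p i C) (R' i) * tl N (fun j => uu K e (cl p j C) (R' j)) i)
            (δ * (uu K e (cl p i C) (R' i)) ^ 2)) := by
  classical
  obtain ⟨hc, hsplit⟩ := split2 δ hδ c hcd
  refine ⟨hc, ?_⟩
  intro e he he1 K hK p _ hp N n
  induction n using Nat.strong_induction_on with
  | _ n ih =>
  intro C R hn hC hR h0 hN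
  obtain ⟨c₀, hc₀, hmin⟩ := exists_min_image C (fun c => padicValInt p c) hC
  obtain ⟨t, ht⟩ : ∃ t, t = padicValInt p c₀ := ⟨_, rfl⟩
  have hmin' : ∀ c ∈ C, t ≤ padicValInt p c := fun c hc => by rw [ht]; exact hmin c hc
  have htN : t < N := by rw [ht]; exact hN c₀ hc₀
  have hlo : (lo p t C).Nonempty := ⟨c₀, mem_lo.2 ⟨hc₀, ht.symm⟩⟩
  by_cases hhi : (hi p t C).Nonempty
  swap
  · refine ⟨fun _ => R, fun _ => hR, ?_⟩
    refine multi_const K e δ hδ.le p N t C R hC ?_ htN
    intro c hcC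
    by_contra hne
    exact hhi ⟨c, mem_hi.2 ⟨hcC, hne⟩⟩
  obtain ⟨Rl, Rh, hRl, hRh, h1, h2⟩ := hsplit e he he1 K hK p hp C R hR h0 t hmin' hhi hlo
  have hlt : (hi p t C).card < n := by
    have h3 := card_hi_lo p t C
    have h4 := hlo.card_pos
    omega
  obtain ⟨Q, hQ, q1, q2⟩ := ih _ hlt (hi p t C) Rh rfl hhi hRh
    (fun c hc => h0 c (hi_subset _ _ _ hc)) (fun c hc => hN c (hi_subset _ _ _ hc))
  -- the classes
  have e1 : ∀ i, i ≠ t → cl p i (hi p t C) = cl p i C := by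
    intro i hi'
    ext c
    rw [mem_cl, mem_cl, mem_hi]
    constructor
    · rintro ⟨⟨a, _⟩, b⟩; exact ⟨a, b⟩
    · rintro ⟨a, b⟩; exact ⟨⟨a, by rw [b]; exact hi'⟩, b⟩
  have e2 : cl p t C = lo p t C := by
    ext c; rw [mem_cl, mem_lo]
  have e3 : ¬ (cl p t (hi p t C)).Nonempty := by
    rintro ⟨c, hc⟩
    rw [mem_cl, mem_hi] at hc
    exact hc.1.2 hc.2
  have e4 : ∀ i, i < t → ¬ (cl p i C).Nonempty := by
    rintro i hi' ⟨c, hc⟩
    rw [mem_cl] at hc
    have := hmin' c hc.1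
    omega
  set R' : ℕ → Finset ℤ := fun i => if i = t then Rl else Q i with hR'
  set u : ℕ → ℝ := fun i => uu K e (cl p i C) (R' i) with hu
  set v : ℕ → ℝ := fun i => uu K e (cl p i (hi p t C)) (Q i) with hv
  have hu0 : ∀ i, 0 ≤ u i := fun i => uu_nonneg _ _ _ _
  have hv0 : ∀ i, 0 ≤ v i := fun i => uu_nonneg _ _ _ _
  have ut : u t = Real.exp (F 1 K e (lo p t C) Rl) := by
    show uu K e (cl p t C) (R' t) = _
    rw [e2, hR']
    simp only [if_true]
    exact uu_of hlo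
  have vt : v t = 0 := uu_empty e3
  have uv : ∀ i, i ≠ t → u i = v i := by
    intro i hi'
    show uu K e (cl p i C) (R' i) = uu K e (cl p i (hi p t C)) (Q i)
    rw [e1 i hi', hR']
    simp only [if_neg hi']
  have vlt : ∀ i, i < t → v i = 0 := by
    intro i hi'
    rw [← uv i hi'.ne]
    exact uu_empty (e4 i hi')
  have htail : tl N u t = ∑ i ∈ range N, v i := by
    unfold tl
    refine sum_congr rfl fun j _ => ?_
    split_ifs with h
    · exact uv j h.ne'
    · rcases (not_lt.1 h).eq_or_lt with h' | h'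
      · rw [h', vt]
      · rw [vlt j h']
  have hsum : ∑ i ∈ range N, u i = u t + ∑ i ∈ range N, v i := by
    rw [← add_sum_erase _ _ (mem_range.2 htN), ← add_sum_erase _ v (mem_range.2 htN), vt, zero_add]
    congr 1
    exact sum_congr rfl fun i hi' => uv i (mem_erase.1 hi').1
  refine ⟨R', fun i => ?_, ?_, ?_⟩
  · rw [hR']
    simp only
    split_ifs
    · exact hRl
    · exact hQ i
  · show Real.exp (F 1 K e C R) ≤ ∑ i ∈ range N, u i
    rw [hsum, ut]
    linarith
  · show Real.exp (F 1 K e C R) ^ 2 ≤ ∑ i ∈ range N, ((u i) ^ 2 +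
          2 * min (u i * tl N u i) (δ * (u i) ^ 2))
    have q2' : Real.exp (F 1 K e (hi p t C) Rh) ^ 2 ≤ ∑ i ∈ range N, ((v i) ^ 2 +
          2 * min (v i * tl N v i) (δ * (v i) ^ 2)) := q2
    have q1' : Real.exp (F 1 K e (hi p t C) Rh) ≤ ∑ i ∈ range N, v i := q1
    have h3 : ∀ i ∈ (range N).erase t, ((v i) ^ 2 + 2 * min (v i * tl N v i) (δ * (v i) ^ 2)) ≤
        ((u i) ^ 2 + 2 * min (u i * tl N u i) (δ * (u i) ^ 2)) := by
      intro i hi'
      have hne := (mem_erase.1 hi').1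
      rw [← uv i hne]
      rcases lt_or_gt_of_ne hne with h | h
      · have : u i = 0 := by rw [uv i hne]; exact vlt i h
        rw [this]; simp
      · have h4 : tl N v i ≤ tl N u i := by
          unfold tl
          refine sum_le_sum fun j _ => ?_
          split_ifs with hj
          · rw [uv j (by omega)]
          · exact le_rfl
        have h5 : min (u i * tl N v i) (δ * (u i) ^ 2) ≤ min (u i * tl N u i) (δ * (u i) ^ 2) :=
          min_le_min (mul_le_mul_of_nonneg_left h4 (hu0 i)) le_rfl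
        linarith
    rw [← add_sum_erase _ _ (mem_range.2 htN)]
    rw [← add_sum_erase _ _ (mem_range.2 htN), vt] at q2'
    have h4 := sum_le_sum h3
    have h5 : min (Real.exp (F 1 K e (lo p t C) Rl) * Real.exp (F 1 K e (hi p t C) Rh))
        (δ * Real.exp (F 1 K e (lo p t C) Rl) ^ 2) ≤ min (u t * tl N u t) (δ * (u t) ^ 2) := by
      rw [ut, htail]
      exact min_le_min (mul_le_mul_of_nonneg_left q1' (Real.exp_pos _).le) le_rfl
    have h6 : ((0 : ℝ)) ^ 2 + 2 * min (0 * tl N v t) (δ * 0 ^ 2) = 0 := by simp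
    rw [h6, zero_add] at q2'
    rw [ut] at h5 ⊢
    linarith


/-- the constant of the system inequality -/
noncomputable def cS (ε : ℝ) : ℝ := cK (xgD (2 * (ε * Real.exp (-(1 / ε)) / 4)))

theorem sys (ε : ℝ) (hε : 0 < ε) (c : ℝ) (hcd : c = cS ε) : 0 < c ∧ ∀ e : ℝ, 0 < e → e ≤ 1 →
    ∀ K : ℝ, K = Real.exp (c / e) →
    ∀ (n : ℕ) (X Y : Finset ℤ) (S : Finset ℚ) (B R : ℚ → Finset ℤ), X.card + Y.card = n →
      (∀ x ∈ X, x ≠ 0) → (∀ y ∈ Y, y ≠ 0) → (∀ l ∈ S, (B l).Nonempty) →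
      (∀ l ∈ S, (R l).Nonempty) → (∀ l ∈ S, B l ⊆ X) →
      (∀ l ∈ S, ∀ x ∈ B l, ∃ y ∈ Y, (y : ℚ) = l * x) →
      (∀ l ∈ S, ∀ q : ℕ, q.Prime → (q : ℝ) < Real.exp (c / e) → ∀ x ∈ B l, ∀ x' ∈ B l,
        padicValInt q x = padicValInt q x') →
      ∑ l ∈ S, Real.exp (F 1 K e (B l) (R l)) ^ 2 ≤ 8 * ((X.card : ℝ) * Y.card) ^ (1 + ε) := by
  classical
  obtain ⟨δ, hδ⟩ : ∃ δ : ℝ, δ = ε * Real.exp (-(1 / ε)) / 4 := ⟨_, rfl⟩
  have hδ0 : 0 < δ := by rw [hδ]; positivity
  have hδ2 : 2 * δ ≤ ε * Real.exp (-(1 / ε)) / 2 := by rw [hδ]; linarith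
  unfold cS at hcd
  rw [← hδ] at hcd
  obtain ⟨hc, hmulti⟩ := multi δ hδ0 c hcd
  refine ⟨hc, ?_⟩
  intro e he he1 K hK n
  have hK0 : 0 < K := by rw [hK]; exact Real.exp_pos _
  have hs : (0 : ℝ) < 1 + ε := by linarith
  induction n using Nat.strong_induction_on with
  | _ n ih =>
  intro X Y S B R hn hX hY hB hR hBX hBY hsm
  by_cases hconst : ∀ p : ℕ, p.Prime → (∀ x ∈ X, ∀ x' ∈ X, padicValInt p x = padicValInt p x') ∧
      (∀ y ∈ Y, ∀ y' ∈ Y, padicValInt p y = padicValInt p y')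
  · have hXeq : ∀ x ∈ X, ∀ x' ∈ X, x.natAbs = x'.natAbs := by
      intro x hx x' hx'
      exact natAbs_eq_of_padic (hX x hx) (hX x' hx') (fun p hp => (hconst p hp).1 x hx x' hx')
    have hYeq : ∀ x ∈ Y, ∀ x' ∈ Y, x.natAbs = x'.natAbs := by
      intro x hx x' hx'
      exact natAbs_eq_of_padic (hY x hx) (hY x' hx') (fun p hp => (hconst p hp).2 x hx x' hx')
    rcases S.eq_empty_or_nonempty with hS | ⟨l₀, hl₀⟩
    · rw [hS]; simp only [sum_empty]; positivity
    · have hcastabs : ∀ a b : ℤ, a.natAbs = b.natAbs → |(a : ℚ)| = |(b : ℚ)| := by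
        intro a b hab
        have h1 : |a| = |b| := by
          rw [Int.abs_eq_natAbs, Int.abs_eq_natAbs, hab]
        exact_mod_cast congrArg (fun z : ℤ => (z : ℚ)) h1
      have hSsub : S ⊆ {l₀, -l₀} := by
        intro l hl
        obtain ⟨x, hx⟩ := hB l hl
        obtain ⟨x', hx'⟩ := hB l₀ hl₀
        obtain ⟨y, hy, hxy⟩ := hBY l hl x hx
        obtain ⟨y', hy', hxy'⟩ := hBY l₀ hl₀ x' hx'
        have e1 := hcastabs _ _ (hXeq x (hBX l hl hx) x' (hBX l₀ hl₀ hx'))
        have e2 := hcastabs _ _ (hYeq y hy y' hy')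
        have hx0 : |(x' : ℚ)| ≠ 0 := by
          rw [abs_ne_zero]
          exact_mod_cast (hX x' (hBX l₀ hl₀ hx'))
        rw [hxy, hxy', abs_mul, abs_mul, e1] at e2
        have e3 := mul_right_cancel₀ hx0 e2
        rw [mem_insert, mem_singleton]
        exact abs_eq_abs.1 e3
      have hS2 : S.card ≤ 2 := (card_le_card hSsub).trans card_le_two
      have hB2 : ∀ l ∈ S, Real.exp (F 1 K e (B l) (R l)) ^ 2 ≤ 4 := by
        intro l hl
        have hB1 : (B l).card ≤ 2 :=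
          H633R5.FS.card_le_two fun a ha b hb => hXeq a (hBX l hl ha) b (hBX l hl hb)
        have h1 : F 1 K e (B l) (R l) ≤ Real.log 2 := by
          refine (F_le 1 K e hK0.le he.le _ _ (hB l hl) (hR l hl)).trans ?_
          rw [one_mul]
          exact Real.log_le_log (by exact_mod_cast (hB l hl).card_pos) (by exact_mod_cast hB1)
        have h2 : Real.exp (F 1 K e (B l) (R l)) ≤ 2 := by
          rw [← Real.exp_log (by norm_num : (0 : ℝ) < 2)]
          exact Real.exp_le_exp.2 h1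
        calc Real.exp (F 1 K e (B l) (R l)) ^ 2 ≤ 2 ^ 2 :=
              pow_le_pow_left₀ (Real.exp_pos _).le h2 2
          _ = 4 := by norm_num
      have hsum : ∑ l ∈ S, Real.exp (F 1 K e (B l) (R l)) ^ 2 ≤ 8 := by
        refine (sum_le_sum hB2).trans ?_
        rw [sum_const, nsmul_eq_mul]
        have : (S.card : ℝ) ≤ 2 := by exact_mod_cast hS2
        linarith
      obtain ⟨x, hx⟩ := hB l₀ hl₀
      obtain ⟨y, hy, _⟩ := hBY l₀ hl₀ x hx
      have h3 : (1 : ℝ) ≤ X.card := by exact_mod_cast card_pos.2 ⟨x, hBX l₀ hl₀ hx⟩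
      have h4 : (1 : ℝ) ≤ Y.card := by exact_mod_cast card_pos.2 ⟨y, hy⟩
      have h5 : 1 ≤ ((X.card : ℝ) * Y.card) ^ (1 + ε) := Real.one_le_rpow (by nlinarith) hs.le
      linarith
  push Not at hconst
  obtain ⟨p, hp, hpc⟩ := hconst
  have : Fact p.Prime := ⟨hp⟩
  obtain ⟨N, hN⟩ : ∃ N : ℕ, ∀ x ∈ X, padicValInt p x < N :=
    ⟨X.sup (fun x => padicValInt p x) + 1, fun x hx => Nat.lt_succ_of_le
      (le_sup (f := fun x => padicValInt p x) hx)⟩
  obtain ⟨k, hk⟩ : ∃ k : ℚ → ℕ, k = fun l => ((N : ℤ) + padicValRat p l).toNat := ⟨_, rfl⟩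
  have hkl : ∀ l ∈ S, ∀ x ∈ B l, ∀ y ∈ Y, (y : ℚ) = l * x →
      padicValInt p y + N = padicValInt p x + k l := by
    intro l hl x hx y hy hxy
    have h1 := val_mul p (hX x (hBX l hl hx)) (hY y hy) hxy
    have h2 := hN x (hBX l hl hx)
    rw [hk]
    simp only
    omega
  -- the classes of one set
  have hsplit : ∀ l : ℚ, ∃ R' : ℕ → Finset ℤ, l ∈ S → (∀ i, (R' i).Nonempty) ∧
        Real.exp (F 1 K e (B l) (R l)) ^ 2 ≤
        ∑ i ∈ range N, ((uu K e (cl p i (B l)) (R' i)) ^ 2 +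
          2 * min (uu K e (cl p i (B l)) (R' i) *
            tl N (fun j => uu K e (cl p j (B l)) (R' j)) i)
            (δ * (uu K e (cl p i (B l)) (R' i)) ^ 2)) := by
    intro l
    by_cases hl : l ∈ S
    swap
    · exact ⟨fun _ => ∅, fun h => absurd h hl⟩
    by_cases hpe : Real.exp (c / e) ≤ p
    · obtain ⟨R', h1, _, h3⟩ := hmulti e he he1 K hK p hpe N _ (B l) (R l) rfl (hB l hl) (hR l hl)
        (fun x hx => hX x (hBX l hl hx)) (fun x hx => hN x (hBX l hl hx))
      exact ⟨R', fun _ => ⟨h1, h3⟩⟩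
    · push Not at hpe
      obtain ⟨x₀, hx₀⟩ := hB l hl
      obtain ⟨_, h2⟩ := multi_const K e δ hδ0.le p N (padicValInt p x₀) (B l) (R l) ⟨x₀, hx₀⟩
        (fun x hx => hsm l hl p hp hpe x hx x₀ hx₀) (hN x₀ (hBX l hl hx₀))
      exact ⟨fun _ => R l, fun _ => ⟨fun _ => hR l hl, h2⟩⟩
  choose R' hR' using hsplit
  obtain ⟨u, hu⟩ : ∃ u : ℚ → ℕ → ℝ, u = fun l i => uu K e (cl p i (B l)) (R' l i) := ⟨_, rfl⟩
  have hu0 : ∀ l i, 0 ≤ u l i := fun l i => by rw [hu]; exact uu_nonneg _ _ _ _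
  obtain ⟨xc, hxc⟩ : ∃ xc : ℕ → ℝ, xc = fun i => ((cl p i X).card : ℝ) := ⟨_, rfl⟩
  obtain ⟨yc, hyc⟩ : ∃ yc : ℕ → ℝ, yc = fun j =>
    ((Y.filter fun y => padicValInt p y + N = j).card : ℝ) := ⟨_, rfl⟩
  have hxc0 : ∀ i, 0 ≤ xc i := fun i => by rw [hxc]; positivity
  have hyc0 : ∀ i, 0 ≤ yc i := fun i => by rw [hyc]; positivity
  obtain ⟨N2, hN2⟩ : ∃ N2 : ℕ, ∀ l ∈ S, k l + N ≤ N2 :=
    ⟨S.sup k + N, fun l hl => Nat.add_le_add_right (le_sup hl) _⟩
  have hsumX : ∑ i ∈ range N, xc i = X.card := by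
    rw [hxc]
    have h1 := card_eq_sum_card_fiberwise (f := fun x => padicValInt p x) (s := X) (t := range N)
      (fun x hx => by
        rw [mem_coe, mem_range]
        exact hN x hx)
    rw [h1]
    push_cast
    rfl
  have hsumY : ∑ j ∈ range N2, yc j ≤ Y.card := by
    rw [hyc]
    have h1 : (Y.filter fun y => padicValInt p y + N < N2).card =
        ∑ j ∈ range N2, (Y.filter fun y => padicValInt p y + N = j).card := by
      rw [card_eq_sum_card_fiberwise (f := fun y => padicValInt p y + N)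
        (s := Y.filter fun y => padicValInt p y + N < N2) (t := range N2)
        (fun y hy => by
          rw [mem_coe, mem_filter] at hy
          rw [mem_coe, mem_range]
          exact hy.2)]
      refine sum_congr rfl fun j hj => ?_
      rw [filter_filter]
      congr 1
      ext y
      rw [mem_filter, mem_filter]
      rw [mem_range] at hj
      constructor
      · rintro ⟨a, _, b⟩; exact ⟨a, b⟩
      · rintro ⟨a, b⟩; exact ⟨a, by omega, b⟩
    have h2 : (Y.filter fun y => padicValInt p y + N < N2).card ≤ Y.card :=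
      card_le_card (filter_subset _ _)
    rw [h1] at h2
    show ∑ j ∈ range N2, (((Y.filter fun y => padicValInt p y + N = j).card : ℕ) : ℝ) ≤ Y.card
    exact_mod_cast h2
  -- the induction hypothesis
  have hclass : ∀ m i, i < N → ∑ l ∈ S.filter (fun l => k l = m), (u l i) ^ 2 ≤
      (8 * (xc i) ^ (1 + ε)) * (yc (i + m)) ^ (1 + ε) := by
    intro m i _
    have e1 : ∑ l ∈ S.filter (fun l => k l = m), (u l i) ^ 2 =
        ∑ l ∈ (S.filter (fun l => k l = m)).filter (fun l => (cl p i (B l)).Nonempty),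
          Real.exp (F 1 K e (cl p i (B l)) (R' l i)) ^ 2 := by
      rw [sum_filter (fun l => (cl p i (B l)).Nonempty)]
      refine sum_congr rfl fun l _ => ?_
      rw [hu]
      simp only
      split_ifs with h
      · rw [uu_of h]
      · rw [uu_empty h]; norm_num
    have hlt : (cl p i X).card + (Y.filter fun y => padicValInt p y + N = i + m).card < n := by
      have h1 : (cl p i X).card ≤ X.card := card_le_card (cl_subset _ _ _)
      have h2 : (Y.filter fun y => padicValInt p y + N = i + m).card ≤ Y.card :=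
        card_le_card (filter_subset _ _)
      by_contra hcon
      have h3 : (cl p i X).card = X.card := by omega
      have h4 : (Y.filter fun y => padicValInt p y + N = i + m).card = Y.card := by omega
      have h5 : cl p i X = X := eq_of_subset_of_card_le (cl_subset _ _ _) h3.ge
      have h6 : (Y.filter fun y => padicValInt p y + N = i + m) = Y :=
        eq_of_subset_of_card_le (filter_subset _ _) h4.ge
      have h7 : ∀ x ∈ X, padicValInt p x = i := fun x hx => by
        rw [← h5] at hx; exact (mem_cl.1 hx).2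
      have h8 : ∀ y ∈ Y, padicValInt p y + N = i + m := fun y hy => by
        rw [← h6] at hy; exact (mem_filter.1 hy).2
      obtain ⟨y, hy, y', hy', hne⟩ := hpc (fun x hx x' hx' => by rw [h7 x hx, h7 x' hx'])
      have := h8 y hy
      have := h8 y' hy'
      omega
    have h1 := ih _ hlt (cl p i X) (Y.filter fun y => padicValInt p y + N = i + m)
      ((S.filter (fun l => k l = m)).filter (fun l => (cl p i (B l)).Nonempty))
      (fun l => cl p i (B l)) (fun l => R' l i) rfl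
      (fun x hx => hX x (cl_subset _ _ _ hx)) (fun y hy => hY y (filter_subset _ _ hy))
      (fun l hl => (mem_filter.1 hl).2)
      (fun l hl => (hR' l (mem_filter.1 (mem_filter.1 hl).1).1).1 i)
      (fun l hl x hx => by
        rw [mem_cl] at hx ⊢
        exact ⟨hBX l (mem_filter.1 (mem_filter.1 hl).1).1 hx.1, hx.2⟩)
      (fun l hl x hx => by
        rw [mem_cl] at hx
        have hl' := (mem_filter.1 (mem_filter.1 hl).1)
        obtain ⟨y, hy, hxy⟩ := hBY l hl'.1 x hx.1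
        refine ⟨y, mem_filter.2 ⟨hy, ?_⟩, hxy⟩
        rw [hkl l hl'.1 x hx.1 y hy hxy, hx.2, hl'.2])
      (fun l hl q hq hqe x hx x' hx' => hsm l (mem_filter.1 (mem_filter.1 hl).1).1 q hq hqe x
        (cl_subset _ _ _ hx) x' (cl_subset _ _ _ hx'))
    rw [e1]
    refine h1.trans (le_of_eq ?_)
    rw [hxc, hyc, Real.mul_rpow (Nat.cast_nonneg _) (Nat.cast_nonneg _)]
    ring
  have hdbl := dbl S k u hu0 N N2 hN2 (fun i => 8 * (xc i) ^ (1 + ε)) (fun j => (yc j) ^ (1 + ε))
    (fun i => by have := Real.rpow_nonneg (hxc0 i) (1 + ε); positivity) (fun j => Real.rpow_nonneg (hyc0 j) _) δ hδ0.le hclass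
  have hmx := many_term ε hε (2 * δ) (by positivity) hδ2 N xc hxc0
  have hmy := many_term ε hε (2 * δ) (by positivity) hδ2 N2 yc hyc0
  calc ∑ l ∈ S, Real.exp (F 1 K e (B l) (R l)) ^ 2
      ≤ ∑ l ∈ S, ∑ i ∈ range N, ((u l i) ^ 2 + 2 * min (u l i * tl N (u l) i)
          (δ * (u l i) ^ 2)) := by
        refine sum_le_sum fun l hl => ?_
        rw [hu]
        exact (hR' l hl).2
    _ ≤ _ := hdbl
    _ ≤ (8 * (∑ i ∈ range N, xc i) ^ (1 + ε)) * (∑ j ∈ range N2, yc j) ^ (1 + ε) := by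
        have e8 : ∑ i ∈ range N, (8 * (xc i) ^ (1 + ε) +
            min (tl N (fun i => 8 * (xc i) ^ (1 + ε)) i) (2 * δ * (8 * (xc i) ^ (1 + ε)))) =
            8 * ∑ i ∈ range N, ((xc i) ^ (1 + ε) +
            min (tl N (fun i => (xc i) ^ (1 + ε)) i) (2 * δ * (xc i) ^ (1 + ε))) := by
          rw [mul_sum]
          refine sum_congr rfl fun i _ => ?_
          rw [tl_mul, mul_add, mul_min_of_nonneg _ _ (by norm_num : (0 : ℝ) ≤ 8)]
          congr 2
          ring
        rw [e8]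
        refine mul_le_mul (mul_le_mul_of_nonneg_left hmx (by norm_num)) hmy ?_
          (mul_nonneg (by norm_num) (Real.rpow_nonneg (sum_nonneg fun i _ => hxc0 i) _))
        refine sum_nonneg fun j _ => ?_
        have h1 : 0 ≤ (yc j) ^ (1 + ε) := Real.rpow_nonneg (hyc0 j) _
        have h2 : 0 ≤ min (tl N2 (fun j => (yc j) ^ (1 + ε)) j) (2 * δ * (yc j) ^ (1 + ε)) :=
          le_min (tl_nonneg (fun j => Real.rpow_nonneg (hyc0 j) _) _) (by positivity)
        linarith
    _ ≤ (8 * (X.card : ℝ) ^ (1 + ε)) * (Y.card : ℝ) ^ (1 + ε) := by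
        rw [hsumX]
        refine mul_le_mul_of_nonneg_left ?_ (by positivity)
        exact Real.rpow_le_rpow (sum_nonneg fun j _ => hyc0 j) hsumY hs.le
    _ = _ := by rw [Real.mul_rpow (Nat.cast_nonneg _) (Nat.cast_nonneg _)]; ring


end Pool.Agent.Zk30.SP
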